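import Pool.Agent.Helper16_CD.Len

set_option autoImplicit false

/-!
# Longest representatives of special cosets, and the chain complex modulo two of the Davis complex
-/

namespace Pool.Agent.CD.H89

open Pool.Agent.Davis Pool.Agent.CD.H16

noncomputable section

variable {V : Type} {Γ : SimpleGraph V}

/-- The map `L` sends an element to the longest element of its coset. -/
structure IsUp (Γ : SimpleGraph V) (T : Finset V) (L : Racg Γ → Racg Γ) : Prop where
  step : ∀ t ∈ T, ∀ x, L (x * gen Γ t) = L x
  mem : ∀ x, ∀ t ∈ T, In (L x) t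
  fix : ∀ x, (∀ t ∈ T, In x t) → L x = x
  le : ∀ x, ln x ≤ ln (L x)
  eq : ∀ x, ln (L x) = ln x → L x = x
  fin : ∀ w, {x | L x = w}.Finite
  comm : ∀ u, (∀ t ∈ T, Γ.Adj u t) → ∀ x, L (x * gen Γ u) = L x * gen Γ u

open Classical in
theorem exists_up (T : Finset V) : Γ.IsClique (T : Set V) → ∃ L, IsUp Γ T L := by
  induction T using Finset.induction_on with
  | empty =>
    intro _
    refine ⟨id, ⟨?_, ?_, fun _ _ => rfl, fun _ => le_rfl, fun _ _ => rfl, ?_, fun _ _ _ => rfl⟩⟩
    · intro t ht
      exact absurd ht (Finset.notMem_empty t)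
    · intro x t ht
      exact absurd ht (Finset.notMem_empty t)
    · intro w
      refine (Set.finite_singleton w).subset ?_
      intro x hx
      exact hx
  | insert v T hv ih =>
    intro hcl
    have hT : Γ.IsClique (T : Set V) := hcl.subset (by simp)
    have hadj : ∀ t ∈ T, Γ.Adj v t := fun t ht =>
      hcl (by simp) (by simp [ht]) (fun e => hv (e ▸ ht))
    obtain ⟨L, hL⟩ := ih hT
    set M : Racg Γ → Racg Γ := fun x => if In x v then x else x * gen Γ v with hM
    have hMv : ∀ x, M (x * gen Γ v) = M x := by
      intro x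
      by_cases h : In x v
      · simp only [hM, in_self, h, not_true_eq_false, if_false, if_true, mul_gen_gen]
      · simp only [hM, in_self, h, not_false_eq_true, if_true, if_false]
    have hMu : ∀ u, Γ.Adj u v → ∀ x, M (x * gen Γ u) = M x * gen Γ u := by
      intro u hu x
      by_cases h : In x v
      · simp only [hM, in_comm hu.symm, h, if_true]
      · simp only [hM, in_comm hu.symm, h, if_false]
        rw [mul_assoc, gen_comm hu, mul_assoc]
    refine ⟨fun x => M (L x), ⟨?_, ?_, ?_, ?_, ?_, ?_, ?_⟩⟩
    · intro t ht x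
      rcases Finset.mem_insert.1 ht with rfl | ht
      · simp only [hL.comm t hadj, hMv]
      · simp only [hL.step t ht]
    · intro x t ht
      by_cases h : In (L x) v
      · simp only [hM, h, if_true]
        rcases Finset.mem_insert.1 ht with rfl | ht
        · exact h
        · exact hL.mem x t ht
      · simp only [hM, h, if_false]
        rcases Finset.mem_insert.1 ht with rfl | ht
        · exact in_self.2 h
        · exact (in_comm (hadj t ht).symm _).2 (hL.mem x t ht)
    · intro x hx
      have h1 := hL.fix x fun t ht => hx t (Finset.mem_insert_of_mem ht)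
      simp only [h1, hM, hx v (Finset.mem_insert_self v T), if_true]
    · intro x
      refine (hL.le x).trans ?_
      by_cases h : In (L x) v
      · simp only [hM, h, if_true]
        exact le_rfl
      · simp only [hM, h, if_false]
        rw [ln_mul_of_not_in h]
        omega
    · intro x hx
      have h1 := hL.le x
      by_cases h : In (L x) v
      · simp only [hM, h, if_true] at hx ⊢
        exact hL.eq x hx
      · simp only [hM, h, if_false] at hx
        rw [ln_mul_of_not_in h] at hx
        omega
    · intro w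
      refine ((hL.fin w).union (hL.fin (w * gen Γ v))).subset ?_
      intro x hx
      have hx' : M (L x) = w := hx
      by_cases h : In (L x) v
      · left
        simp only [hM, h, if_true] at hx'
        exact hx'
      · right
        simp only [hM, h, if_false] at hx'
        change L x = w * gen Γ v
        rw [← hx', mul_gen_gen]
    · intro u hu x
      rw [hL.comm u (fun t ht => hu t (Finset.mem_insert_of_mem ht)),
        hMu u (hu v (Finset.mem_insert_self v T))]

open Classical in
/-- The longest element of the coset of `x`. -/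
def up (Γ : SimpleGraph V) (T : Finset V) : Racg Γ → Racg Γ :=
  if h : Γ.IsClique (T : Set V) then (exists_up T h).choose else id

theorem isUp {T : Finset V} (h : Γ.IsClique (T : Set V)) : IsUp Γ T (up Γ T) := by
  unfold up
  rw [dif_pos h]
  exact (exists_up T h).choose_spec

end

noncomputable section chains

variable {V : Type} [Fintype V] [DecidableEq V]

/-- Chains modulo two of the Davis complex: `f T x` is the coefficient of the cube `x W_T`. -/
structure Chn (Γ : SimpleGraph V) (p : ℕ) (f : Finset V → (Racg Γ →₀ ZMod 2)) : Prop where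
  supp : ∀ T, f T ≠ 0 → Γ.IsClique (T : Set V) ∧ T.card = p
  inv : ∀ T, ∀ v ∈ T, ∀ x, f T (x * gen Γ v) = f T x

/-- The boundary. -/
def bdy {Γ : SimpleGraph V} (f : Finset V → (Racg Γ →₀ ZMod 2)) (S : Finset V) :
    Racg Γ →₀ ZMod 2 := ∑ v ∈ Finset.univ \ S, f (insert v S)

variable {Γ : SimpleGraph V}

theorem Chn.zero (p : ℕ) : Chn Γ p 0 := ⟨fun _ h => absurd rfl h, fun _ _ _ _ => rfl⟩

theorem Chn.add {p : ℕ} {f g : Finset V → (Racg Γ →₀ ZMod 2)} (hf : Chn Γ p f)
    (hg : Chn Γ p g) : Chn Γ p (f + g) := by
  refine ⟨fun T hT => ?_, fun T v hv x => ?_⟩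
  · by_cases h : f T = 0
    · refine hg.supp T fun h' => hT ?_
      rw [Pi.add_apply, h, h', add_zero]
    · exact hf.supp T h
  · rw [Pi.add_apply, Finsupp.add_apply, Finsupp.add_apply, hf.inv T v hv, hg.inv T v hv]

theorem bdy_add (f g : Finset V → (Racg Γ →₀ ZMod 2)) : bdy (f + g) = bdy f + bdy g := by
  funext S
  simp only [bdy, Pi.add_apply, Finset.sum_add_distrib]

theorem bdy_apply (f : Finset V → (Racg Γ →₀ ZMod 2)) (S : Finset V) (x : Racg Γ) :
    bdy f S x = ∑ v ∈ Finset.univ \ S, f (insert v S) x := by
  rw [bdy, Finsupp.finsetSum_apply]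

theorem Chn.bdy {p : ℕ} {f : Finset V → (Racg Γ →₀ ZMod 2)} (hf : Chn Γ (p + 1) f) :
    Chn Γ p (bdy f) := by
  refine ⟨fun T hT => ?_, fun T v hv x => ?_⟩
  · obtain ⟨v, hv, h⟩ := Finset.exists_ne_zero_of_sum_ne_zero hT
    have hvT : v ∉ T := (Finset.mem_sdiff.1 hv).2
    obtain ⟨h1, h2⟩ := hf.supp _ h
    refine ⟨h1.subset (by simp), ?_⟩
    rw [Finset.card_insert_of_notMem hvT] at h2
    omega
  · rw [bdy_apply, bdy_apply]
    refine Finset.sum_congr rfl fun u _ => ?_
    rw [hf.inv _ v (Finset.mem_insert_of_mem hv)]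

theorem two {M : Type*} [AddCommGroup M] [Module (ZMod 2) M] (x : M) : x + x = 0 := by
  have h : (2 : ZMod 2) • x = 0 := by
    rw [show (2 : ZMod 2) = 0 from rfl, zero_smul]
  rwa [two_smul] at h

/-- The boundary of a boundary is zero. -/
theorem bdy_bdy (f : Finset V → (Racg Γ →₀ ZMod 2)) : bdy (bdy f) = 0 := by
  funext S
  unfold bdy
  rw [Finset.sum_sigma', Pi.zero_apply]
  refine Finset.sum_involution (fun a _ => ⟨a.2, a.1⟩) ?_ ?_ ?_ ?_
  · rintro ⟨v, w⟩ _
    simp only
    rw [Finset.insert_comm]
    exact two _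
  · rintro ⟨v, w⟩ h _ e
    simp only [Finset.mem_sigma, Finset.mem_sdiff, Finset.mem_univ, true_and,
      Finset.mem_insert, not_or] at h
    simp only [Sigma.mk.injEq] at e
    exact h.2.1 e.1
  · rintro ⟨v, w⟩ h
    simp only [Finset.mem_sigma, Finset.mem_sdiff, Finset.mem_univ, true_and,
      Finset.mem_insert, not_or] at h ⊢
    exact ⟨h.2.2, fun e => h.2.1 e.symm, h.1⟩
  · rintro ⟨v, w⟩ _
    rfl

/-- One step: the part of maximal length is a boundary. -/
theorem chain_step {p k : ℕ} {f : Finset V → (Racg Γ →₀ ZMod 2)} (hf : Chn Γ p f)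
    (hc : bdy f = 0) (hk : 1 ≤ k) (hm : ∀ T x, k < ln x → f T x = 0) :
    ∃ g, Chn Γ (p + 1) g ∧ ∀ S x, k ≤ ln x → bdy g S x = f S x := by
  classical
  have hsub : ∀ T w, ln w = k → f T w ≠ 0 → ∀ t ∈ T, In w t := by
    intro T w hw hT t ht
    by_contra h
    apply hT
    rw [← hf.inv T t ht w]
    exact hm T _ (by rw [ln_mul_of_not_in h]; omega)
  have hne : ∀ w : Racg Γ, ln w = k → ∃ v, In w v := by
    intro w hw
    refine exists_in ?_
    rintro rfl
    rw [ln_one] at hw
    omega
  set b : Racg Γ → Finset V → ZMod 2 := fun w T =>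
    if h : ∃ v, In w v then (if h.choose ∈ T then f (T.erase h.choose) w else 0) else 0 with hb
  have hb1 : ∀ w T, ln w = k → b w T ≠ 0 → ∀ t ∈ T, In w t := by
    intro w T hw hT t ht
    simp only [hb, dif_pos (hne w hw)] at hT
    split_ifs at hT with h1
    · by_cases h2 : t = (hne w hw).choose
      · rw [h2]
        exact (hne w hw).choose_spec
      · exact hsub _ w hw hT t (Finset.mem_erase.2 ⟨h2, ht⟩)
    · exact absurd rfl hT
  have hcl : ∀ (w : Racg Γ) (T : Finset V), (∀ t ∈ T, In w t) → Γ.IsClique (T : Set V) := by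
    intro w T h s hs t ht hst
    exact in_clique (h s hs) (h t ht) hst
  have hb2 : ∀ w T, b w T ≠ 0 → T.card = p + 1 ∧ ∃ T', f T' w ≠ 0 := by
    intro w T hT
    simp only [hb] at hT
    split_ifs at hT with h0 h1
    · have h3 := (hf.supp (T.erase h0.choose) (fun e => hT (by rw [e]; rfl))).2
      rw [Finset.card_erase_of_mem h1] at h3
      have h4 := Finset.card_pos.2 ⟨_, h1⟩
      exact ⟨by omega, _, hT⟩
    · exact absurd rfl hT
    · exact absurd rfl hT
  set g0 : Finset V → Racg Γ → ZMod 2 := fun T x =>
    if Γ.IsClique (T : Set V) ∧ ln (up Γ T x) = k then b (up Γ T x) T else 0 with hg0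
  have hfin : ∀ T, (Function.support (g0 T)).Finite := by
    intro T
    by_cases hT : Γ.IsClique (T : Set V)
    · have hU := isUp hT
      refine Set.Finite.subset (Set.Finite.biUnion
        (Finset.finite_toSet (Finset.univ.biUnion fun T' => (f T').support))
        fun w _ => hU.fin w) ?_
      intro x hx
      have hx' : g0 T x ≠ 0 := hx
      simp only [hg0] at hx'
      split_ifs at hx' with h1
      · obtain ⟨_, T', h3⟩ := hb2 _ _ hx'
        simp only [Finset.coe_biUnion, Set.mem_iUnion]
        exact ⟨up Γ T x, ⟨T', by simpa using h3⟩, rfl⟩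
      · exact absurd rfl hx'
    · have : Function.support (g0 T) = ∅ := by
        ext x
        simp [hg0, hT]
      rw [this]
      exact Set.finite_empty
  set g : Finset V → (Racg Γ →₀ ZMod 2) := fun T => Finsupp.ofSupportFinite (g0 T) (hfin T) with hg
  have hgv : ∀ T x, g T x = g0 T x := fun T x => rfl
  refine ⟨g, ⟨?_, ?_⟩, ?_⟩
  · intro T hT
    obtain ⟨x, hx⟩ := Finsupp.ne_iff.1 hT
    rw [hgv, Finsupp.coe_zero, Pi.zero_apply] at hx
    simp only [hg0] at hx
    split_ifs at hx with h1
    · exact ⟨h1.1, (hb2 _ _ hx).1⟩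
    · exact absurd rfl hx
  · intro T v hv x
    rw [hgv, hgv]
    simp only [hg0]
    by_cases hT : Γ.IsClique (T : Set V)
    · rw [(isUp hT).step v hv]
    · simp only [hT, false_and, if_false]
  · intro S x hx
    rw [bdy_apply]
    have key : ∀ v ∈ Finset.univ \ S, g (insert v S) x = if ln x = k then b x (insert v S) else 0 := by
      intro v _
      rw [hgv]
      simp only [hg0]
      by_cases hT : Γ.IsClique ((insert v S : Finset V) : Set V)
      · have hU := isUp hT
        by_cases h2 : ln (up Γ (insert v S) x) = k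
        · have h3 := hU.le x
          have h4 : up Γ (insert v S) x = x := hU.eq x (by omega)
          rw [h4] at h2
          rw [if_pos ⟨hT, by rw [h4]; exact h2⟩, h4, if_pos h2]
        · rw [if_neg (fun h => h2 h.2)]
          by_cases h5 : ln x = k
          · rw [if_pos h5]
            by_contra h6
            have h7 := hU.fix x (hb1 x _ h5 (fun e => h6 e.symm))
            rw [h7] at h2
            exact h2 h5
          · rw [if_neg h5]
      · rw [if_neg (fun h => hT h.1)]
        by_cases h5 : ln x = k
        · rw [if_pos h5]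
          by_contra h6
          exact hT (hcl x _ (hb1 x _ h5 (fun e => h6 e.symm)))
        · rw [if_neg h5]
    rw [Finset.sum_congr rfl key]
    by_cases h5 : ln x = k
    · simp only [if_pos h5]
      simp only [hb, dif_pos (hne x h5)]
      set v0 := (hne x h5).choose with hv0
      by_cases h6 : v0 ∈ S
      · have h7 : ∀ v ∈ Finset.univ \ S, (if v0 ∈ insert v S then f ((insert v S).erase v0) x
            else 0) = f (insert v (S.erase v0)) x := by
          intro v hv
          have hvS : v ∉ S := (Finset.mem_sdiff.1 hv).2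
          have hne' : v ≠ v0 := fun e => hvS (e ▸ h6)
          rw [if_pos (Finset.mem_insert_of_mem h6), Finset.erase_insert_of_ne hne']
        rw [Finset.sum_congr rfl h7]
        have h8 : bdy f (S.erase v0) x = 0 := by rw [hc]; rfl
        rw [bdy_apply] at h8
        have h9 : Finset.univ \ S.erase v0 = insert v0 (Finset.univ \ S) := by
          ext u
          simp only [Finset.mem_sdiff, Finset.mem_univ, true_and, Finset.mem_erase, not_and,
            Finset.mem_insert]
          by_cases hu : u = v0
          · simp [hu]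
          · simp [hu]
        rw [h9, Finset.sum_insert (by simp [h6]), Finset.insert_erase h6] at h8
        have h10 := two (M := ZMod 2) (f S x)
        linear_combination h8 - h10
      · rw [Finset.sum_eq_single v0]
        · rw [if_pos (Finset.mem_insert_self v0 S), Finset.erase_insert h6]
        · intro v _ hv
          rw [if_neg]
          rw [Finset.mem_insert, not_or]
          exact ⟨fun e => hv e.symm, h6⟩
        · intro h
          exact absurd (Finset.mem_sdiff.2 ⟨Finset.mem_univ _, h6⟩) h
    · simp only [if_neg h5, Finset.sum_const_zero]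
      exact (hm S x (by omega)).symm

/-- All but the value at `1` is a boundary. -/
theorem chain_main {p : ℕ} (k : ℕ) : ∀ f : Finset V → (Racg Γ →₀ ZMod 2), Chn Γ p f →
    bdy f = 0 → (∀ T x, k < ln x → f T x = 0) →
    ∃ g, Chn Γ (p + 1) g ∧ ∀ S x, x ≠ 1 → bdy g S x = f S x := by
  induction k with
  | zero =>
    intro f _ _ hm
    refine ⟨0, Chn.zero _, fun S x hx => ?_⟩
    have h1 : 0 < ln x := by
      rw [Nat.pos_iff_ne_zero]
      intro h
      exact hx ((css Γ).length_eq_zero_iff.1 h)
    rw [hm S x h1, bdy_apply]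
    exact Finset.sum_eq_zero fun v _ => rfl
  | succ k ih =>
    intro f hf hc hm
    obtain ⟨g, hg, h1⟩ := chain_step hf hc (Nat.succ_le_succ (Nat.zero_le k)) hm
    obtain ⟨g', hg', h2⟩ := ih (f + bdy g) (hf.add hg.bdy)
      (by rw [bdy_add, hc, bdy_bdy, add_zero]) (fun T x hx => by
        rw [Pi.add_apply, Finsupp.add_apply, h1 T x hx]
        exact two _)
    refine ⟨g + g', hg.add hg', fun S x hx => ?_⟩
    rw [bdy_add, Pi.add_apply, Finsupp.add_apply, h2 S x hx, Pi.add_apply, Finsupp.add_apply]
    have := two (M := ZMod 2) (bdy g S x)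
    linear_combination this

theorem exists_bound (f : Finset V → (Racg Γ →₀ ZMod 2)) :
    ∃ k, ∀ T x, k < ln x → f T x = 0 := by
  classical
  refine ⟨(Finset.univ.biUnion fun T => (f T).support).sup ln, fun T x hx => ?_⟩
  by_contra h
  have h1 : x ∈ Finset.univ.biUnion fun T => (f T).support :=
    Finset.mem_biUnion.2 ⟨T, Finset.mem_univ _, by simpa using h⟩
  have := Finset.le_sup (f := ln) h1
  omega

theorem gen_ne_one (v : V) : gen Γ v ≠ 1 := by
  intro h
  have h1 := ln_mul_of_not_in (not_in_one (Γ := Γ) (v := v))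
  rw [one_mul, h, ln_one] at h1
  omega

/-- The chain complex modulo two of the Davis complex is exact in positive degrees. -/
theorem chain_exact {p : ℕ} {f : Finset V → (Racg Γ →₀ ZMod 2)} (hf : Chn Γ (p + 1) f)
    (hc : bdy f = 0) : ∃ g, Chn Γ (p + 2) g ∧ bdy g = f := by
  obtain ⟨k, hk⟩ := exists_bound f
  obtain ⟨g, hg, h⟩ := chain_main k f hf hc hk
  refine ⟨g, hg, ?_⟩
  funext S
  ext x
  by_cases hx : x = 1
  · subst hx
    by_cases hS : S.card = p + 1
    · obtain ⟨v, hv⟩ : S.Nonempty := Finset.card_pos.1 (by omega)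
      rw [← hf.inv S v hv, ← hg.bdy.inv S v hv, one_mul]
      exact h S _ (gen_ne_one v)
    · have e1 : f S = 0 := by
        by_contra h'
        exact hS (hf.supp S h').2
      have e2 : bdy g S = 0 := by
        by_contra h'
        exact hS (hg.bdy.supp S h').2
      rw [e1, e2]
  · exact h S x hx

/-- The sum of the coefficients. -/
def tot (a : Racg Γ →₀ ZMod 2) : ZMod 2 := a.sum fun _ c => c

theorem tot_add (a b : Racg Γ →₀ ZMod 2) : tot (a + b) = tot a + tot b :=
  Finsupp.sum_add_index' (fun _ => rfl) fun _ _ _ => rfl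

theorem tot_of_inv {a : Racg Γ →₀ ZMod 2} {v : V} (h : ∀ x, a (x * gen Γ v) = a x) :
    tot a = 0 := by
  classical
  unfold tot Finsupp.sum
  refine Finset.sum_involution (fun x _ => x * gen Γ v) ?_ ?_ ?_ ?_
  · intro x _
    rw [h]
    exact two _
  · intro x _ _ e
    exact gen_ne_one v (mul_eq_left.1 e)
  · intro x hx
    rw [Finsupp.mem_support_iff] at hx ⊢
    rwa [h]
  · intro x _
    exact mul_gen_gen x v

/-- The chains of degree zero with total coefficient zero are boundaries. -/
theorem chain_zero {f : Finset V → (Racg Γ →₀ ZMod 2)} (hf : Chn Γ 0 f) (ht : tot (f ∅) = 0) :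
    ∃ g, Chn Γ 1 g ∧ bdy g = f := by
  have hc : bdy f = 0 := by
    funext S
    refine Finset.sum_eq_zero fun v _ => ?_
    by_contra h
    have := (hf.supp _ h).2
    rw [Finset.card_eq_zero] at this
    exact Finset.insert_ne_empty _ _ this
  obtain ⟨k, hk⟩ := exists_bound f
  obtain ⟨g, hg, h⟩ := chain_main k f hf hc hk
  refine ⟨g, hg, ?_⟩
  funext S
  by_cases hS : S = ∅
  · subst hS
    have h1 : tot (bdy g ∅ + f ∅) = 0 := by
      rw [tot_add, ht, add_zero]
      unfold bdy
      have h2 : ∀ s : Finset V, tot (∑ v ∈ s, g (insert v ∅)) = 0 := by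
        intro s
        induction s using Finset.induction_on with
        | empty => rfl
        | insert a s ha ih =>
          rw [Finset.sum_insert ha, tot_add, ih, add_zero]
          exact tot_of_inv (v := a) fun x => hg.inv _ a (Finset.mem_insert_self a ∅) x
      exact h2 _
    have h3 : ∀ x, x ≠ 1 → (bdy g ∅ + f ∅) x = 0 := by
      intro x hx
      rw [Finsupp.add_apply, h ∅ x hx]
      exact two _
    have h4 : bdy g ∅ + f ∅ = Finsupp.single 1 ((bdy g ∅ + f ∅) 1) := by
      ext x
      by_cases hx : x = 1
      · subst hx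
        rw [Finsupp.single_eq_same]
      · rw [h3 x hx, Finsupp.single_eq_of_ne (fun e => hx e)]
    have h5 : (bdy g ∅ + f ∅) 1 = 0 := by
      rw [h4] at h1
      unfold tot at h1
      rwa [Finsupp.sum_single_index rfl] at h1
    have h6 : bdy g ∅ + f ∅ = 0 := by rw [h4, h5, Finsupp.single_zero]
    have h7 := two (f ∅)
    exact add_right_cancel (h6.trans h7.symm)
  · have e1 : f S = 0 := by
      by_contra h'
      exact hS (Finset.card_eq_zero.1 (hf.supp S h').2)
    have e2 : bdy g S = 0 := by
      by_contra h'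
      exact hS (Finset.card_eq_zero.1 (hg.bdy.supp S h').2)
    rw [e1, e2]

end chains

end Pool.Agent.CD.H89
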