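import Pool.Agent.Helper24_CD.Pdd
import Pool.Agent.Helper89_CD.Long

set_option autoImplicit false

/-!
# Poincare duality modulo two of the Davis complex
-/

namespace Pool.Agent.CD.H89

open Pool.Agent.Davis Pool.Agent.CD.H16 Pool.Agent.Helper24CD

noncomputable section

theorem hex (V : Type) [DecidableEq V] [Fintype V] (Γ : SimpleGraph V) (p : ℕ) (hp : 1 ≤ p) :
    ExH Γ (NR Γ) p := by
  obtain ⟨q, rfl⟩ : ∃ q, p = q + 1 := ⟨p - 1, by omega⟩
  intro f hf hc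
  have h1 : Chn Γ (q + 1) f := by
    refine ⟨fun T hT => ?_, fun T v hv x => ?_⟩
    · obtain ⟨a, b⟩ := (hf T).1 hT
      exact ⟨a, by exact_mod_cast b⟩
    · exact NR_eq_zero.1 ((hf T).2 v hv) x
  obtain ⟨g, hg, h2⟩ := chain_exact h1 (funext hc)
  refine ⟨g, fun T => ⟨fun hT => ?_, fun v hv => NR_eq_zero.2 (hg.inv T v hv)⟩, fun S => congrFun h2 S⟩
  obtain ⟨a, b⟩ := hg.supp T hT
  refine ⟨a, ?_⟩
  rw [b]
  push_cast
  ring

/-- PDD. -/
theorem pdd : Pool.Agent.CD.PddStmt := pdd_of hex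

end

end Pool.Agent.CD.H89
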